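import Pool.Agent.Q267.E8.Main1c
import Pool.Agent.Q267.E8.WC
import Pool.Agent.Q121.E8.RP

set_option autoImplicit false

/-!
# A supercongruence for `∑ C(-1/4, k) C(-1/2, k) 2^k`

For every prime `p > 5` the conjectured congruence holds: `S(p) ≡ 2x - p/(2x)` modulo `p²` if `p = x² + 2y²` with
`x ≡ 1` modulo `4` (this is the case `p ≡ 1, 3` modulo `8`), and `S(p) ≡ 0` modulo `p` if `p ≡ 5, 7` modulo `8`.
-/

namespace Pool.Agent.Results.MP_c35bdc_nt.Full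

open Finset

/-- the generalized binomial coefficient `a (a - 1) ... (a - k + 1) / k!` -/
def binom (a : ℚ) (k : ℕ) : ℚ := (∏ i ∈ range k, (a - i)) / (k.factorial : ℚ)

/-- the sum `S(p)` of the problem -/
def S (p : ℕ) : ℚ := ∑ k ∈ range p, binom (-1 / 4) k * binom (-1 / 2) k * 2 ^ k

/-- `u ≡ v` modulo `p^m`, i.e. `u - v` is `p^m` times a rational number whose denominator is prime to `p` -/
def Cong (p m : ℕ) (u v : ℚ) : Prop := ∃ (n : ℤ) (d : ℕ), ¬ p ∣ d ∧ u - v = (p : ℚ) ^ m * (n / d)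

/-- **The supercongruence of Q1 holds for every prime `p > 5`.** -/
theorem result (p : ℕ) (hp : p.Prime) (h5 : 5 < p) :
    (p % 8 = 1 ∨ p % 8 = 3 → ∃ x y : ℤ, (p : ℤ) = x ^ 2 + 2 * y ^ 2 ∧ x % 4 = 1) ∧
    (∀ x y : ℤ, (p : ℤ) = x ^ 2 + 2 * y ^ 2 → x % 4 = 1 →
      Cong p 2 (S p) (2 * (x : ℚ) - (p : ℚ) / (2 * (x : ℚ)))) ∧
    (p % 8 = 5 ∨ p % 8 = 7 → Cong p 1 (S p) 0) := by
  haveI : Fact p.Prime := ⟨hp⟩
  refine ⟨fun h => ?_, fun x y hxy hx => ?_, fun h => ?_⟩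
  · obtain ⟨x, y, hxy, hx⟩ := Pool.Agent.Q121.E8.rp p h
    exact ⟨x, y, hxy, by omega⟩
  · exact Pool.Agent.Q267.E8.main_split Pool.Agent.Q267.E8.wa Pool.Agent.Q267.E8.wc p (by omega) x y hxy
      (by omega)
  · exact Pool.Agent.Q267.E8.main_inert p (by omega) h

end Pool.Agent.Results.MP_c35bdc_nt.Full
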